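import Mathlib
import Pool.Agent.Y640.RectMain

/-!
# Rectangular matrix multiplication with one small side: all formats
-/

set_option autoImplicit false

open Finset

namespace Pool.Agent.U16.RM

open Pool.Agent.W329.AR (Rk MMT MR)

/-- A `p × q` matrix and a `q × s` matrix over `K` can be multiplied with `r` products, each of a
linear form in the entries of the first matrix and a linear form in the entries of the second. -/
def MulWith (K : Type*) [CommRing K] (p q s r : ℕ) : Prop :=
  ∃ (f : Fin r → Matrix (Fin p) (Fin q) K →ₗ[K] K) (g : Fin r → Matrix (Fin q) (Fin s) K →ₗ[K] K)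
    (W : Fin r → Matrix (Fin p) (Fin s) K),
    ∀ (A : Matrix (Fin p) (Fin q) K) (B : Matrix (Fin q) (Fin s) K),
      A * B = ∑ l, (f l A * g l B) • W l

theorem MulWith.of_MR {K : Type*} [CommRing K] {p q s r : ℕ} (h : MR K p q s r) :
    MulWith K p q s r := by
  obtain ⟨v, w, u, h⟩ := h
  refine ⟨fun l => ∑ y : Fin p × Fin q, v l y • Matrix.entryLinearMap K K y.1 y.2,
    fun l => ∑ z : Fin q × Fin s, w l z • Matrix.entryLinearMap K K z.1 z.2,
    fun l => Matrix.of fun i j => u l (j, i), fun A B => ?_⟩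
  ext i j
  rw [Matrix.mul_apply, Matrix.sum_apply]
  have h1 : ∀ l, ((∑ y : Fin p × Fin q, v l y • Matrix.entryLinearMap K K y.1 y.2) A *
      (∑ z : Fin q × Fin s, w l z • Matrix.entryLinearMap K K z.1 z.2) B) * u l (j, i) =
      ∑ y : Fin p × Fin q, ∑ z : Fin q × Fin s, A y.1 y.2 * B z.1 z.2 *
        (v l y * w l z * u l (j, i)) := by
    intro l
    rw [LinearMap.sum_apply, LinearMap.sum_apply, Finset.sum_mul_sum, Finset.sum_mul]
    refine Finset.sum_congr rfl fun y _ => ?_
    rw [Finset.sum_mul]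
    refine Finset.sum_congr rfl fun z _ => ?_
    simp only [LinearMap.smul_apply, Matrix.entryLinearMap_apply, smul_eq_mul]
    ring
  simp only [Matrix.smul_apply, smul_eq_mul, Matrix.of_apply]
  rw [Finset.sum_congr rfl fun l _ => h1 l, Finset.sum_comm]
  have h2 : ∀ y : Fin p × Fin q, ∑ l, ∑ z : Fin q × Fin s, A y.1 y.2 * B z.1 z.2 *
        (v l y * w l z * u l (j, i)) =
      ∑ z : Fin q × Fin s, A y.1 y.2 * B z.1 z.2 *
        (if y.1 = i ∧ y.2 = z.1 ∧ z.2 = j then 1 else 0) := by
    intro y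
    rw [Finset.sum_comm]
    refine Finset.sum_congr rfl fun z _ => ?_
    rw [← Finset.mul_sum, ← h]
    rfl
  rw [Finset.sum_congr rfl fun y _ => h2 y]
  simp only [Fintype.sum_prod_type]
  rw [Finset.sum_eq_single i]
  · refine Finset.sum_congr rfl fun s _ => ?_
    rw [Finset.sum_eq_single s]
    · rw [Finset.sum_eq_single j]
      · simp
      · intro j' _ hj'
        simp [hj']
      · simp
    · intro s' _ hs'
      simp [hs'.symm]
    · simp
  · intro i' _ hi'
    simp [hi']
  · simp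

theorem MR_rot {K : Type*} [CommRing K] {p q s r : ℕ} (h : MR K p q s r) : MR K q s p r := by
  refine (Rk.rot h).congr fun a b c => ?_
  simp only [MMT]
  refine if_congr ?_ rfl rfl
  constructor
  · rintro ⟨h1, h2, h3⟩
    exact ⟨h3.symm, h1.symm, h2⟩
  · rintro ⟨h1, h2, h3⟩
    exact ⟨h2.symm, h3, h1.symm⟩

/-- `p q` products are always necessary, `p m q` -/
theorem MulWith.lower1 {K : Type*} [CommRing K] [Nontrivial K] {p m q r : ℕ} (hm : 1 ≤ m)
    (h : MulWith K p m q r) : p * q ≤ r := by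
  obtain ⟨f, g, W, h⟩ := h
  have hspan : Submodule.span K (Set.range W) = ⊤ := by
    rw [eq_top_iff, ← (Matrix.stdBasis K (Fin p) (Fin q)).span_eq, Submodule.span_le]
    rintro _ ⟨⟨i, j⟩, rfl⟩
    rw [Matrix.stdBasis_eq_single]
    have h1 : Matrix.single i j (1 : K) =
        Matrix.single i (⟨0, hm⟩ : Fin m) (1 : K) * Matrix.single (⟨0, hm⟩ : Fin m) j (1 : K) := by
      simp
    rw [h1, h]
    exact Submodule.sum_mem _ fun l _ => Submodule.smul_mem _ _ (Submodule.subset_span ⟨l, rfl⟩)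
  have h2 := finrank_range_le_card (R := K) W
  rw [Set.finrank, hspan, finrank_top, Module.finrank_matrix] at h2
  simpa using h2

/-- `p q` products are always necessary, `m p q` -/
theorem MulWith.lower2 {K : Type*} [CommRing K] [Nontrivial K] {p m q r : ℕ} (hm : 1 ≤ m)
    (h : MulWith K m p q r) : p * q ≤ r := by
  obtain ⟨f, g, W, h⟩ := h
  have hinj : Function.Injective (LinearMap.pi g) := by
    rw [← LinearMap.ker_eq_bot, LinearMap.ker_eq_bot']
    intro B hB
    have h0 : ∀ l, g l B = 0 := fun l => congrFun hB l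
    ext i j
    have h1 := h (Matrix.single (⟨0, hm⟩ : Fin m) i (1 : K)) B
    have h2 := congrFun (congrFun h1 ⟨0, hm⟩) j
    simpa [h0] using h2
  have h3 := LinearMap.finrank_le_finrank_of_injective hinj
  rw [Module.finrank_matrix] at h3
  simpa using h3

/-- `p q` products are always necessary, `p q m` -/
theorem MulWith.lower3 {K : Type*} [CommRing K] [Nontrivial K] {p m q r : ℕ} (hm : 1 ≤ m)
    (h : MulWith K p q m r) : p * q ≤ r := by
  obtain ⟨f, g, W, h⟩ := h
  have hinj : Function.Injective (LinearMap.pi f) := by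
    rw [← LinearMap.ker_eq_bot, LinearMap.ker_eq_bot']
    intro B hB
    have h0 : ∀ l, f l B = 0 := fun l => congrFun hB l
    ext i j
    have h1 := h B (Matrix.single j (⟨0, hm⟩ : Fin m) (1 : K))
    have h2 := congrFun (congrFun h1 i) ⟨0, hm⟩
    simpa [h0] using h2
  have h3 := LinearMap.finrank_le_finrank_of_injective hinj
  rw [Module.finrank_matrix] at h3
  simpa using h3

/-- **All formats with one small side.** -/
theorem formats.{u} (d : ℕ) (hd : 2 ≤ d) : ∃ n₀ : ℕ, ∀ p q : ℕ, n₀ ≤ p → n₀ ≤ q →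
    ∀ m : ℕ, m ^ (d + 9) ≤ min p q → ∃ r : ℕ, (r : ℝ) ≤ (1 + 12 / d) * ((p : ℝ) * q) ∧
      ∀ (K : Type u) [CommRing K], MulWith K p m q r ∧ MulWith K m p q r ∧ MulWith K p q m r := by
  obtain ⟨n₀, h₀⟩ := Pool.Agent.Y640.Rect.main_MR.{u} d hd
  set B : ℕ := 20 * d with hB
  refine ⟨B * (n₀ + B ^ (d + 8) + 1), fun p q hp hq m hm => ?_⟩
  set t := min p q with ht
  have htp : t ≤ p := min_le_left _ _
  have htq : t ≤ q := min_le_right _ _
  have hBpos : 0 < B := by omega
  have hlow : B * (n₀ + B ^ (d + 8) + 1) ≤ t := le_min hp hq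
  set n := t / B with hn
  have hn1 : n₀ + B ^ (d + 8) + 1 ≤ n := by
    rw [hn, Nat.le_div_iff_mul_le hBpos]
    linarith [Nat.mul_comm B (n₀ + B ^ (d + 8) + 1)]
  have hnB : n * B ≤ t := Nat.div_mul_le_self _ _
  have hnpos : 0 < n := by omega
  have hmn : m ^ (d + 8) ≤ n := by
    rcases lt_or_ge m B with h | h
    · have : m ^ (d + 8) ≤ B ^ (d + 8) := Nat.pow_le_pow_left h.le _
      omega
    · rw [hn, Nat.le_div_iff_mul_le hBpos]
      calc m ^ (d + 8) * B ≤ m ^ (d + 8) * m := Nat.mul_le_mul le_rfl h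
        _ = m ^ (d + 9) := by rw [pow_succ m (d + 8)]
        _ ≤ t := hm
  obtain ⟨r, hr, hMR⟩ := h₀ n (by omega) m hmn
  set a := p / n + 1 with ha
  set b := q / n + 1 with hb
  have hpa : p ≤ a * n := by
    have := Nat.div_add_mod p n
    have h6 := Nat.mod_lt p hnpos
    have : a * n = n * (p / n) + n := by rw [ha]; ring
    omega
  have hpa' : a * n ≤ p + n := by
    have h6 := Nat.div_mul_le_self p n
    have : a * n = p / n * n + n := by rw [ha]; ring
    omega
  have hqb : q ≤ b * n := by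
    have := Nat.div_add_mod q n
    have h6 := Nat.mod_lt q hnpos
    have : b * n = n * (q / n) + n := by rw [hb]; ring
    omega
  have hqb' : b * n ≤ q + n := by
    have h6 := Nat.div_mul_le_self q n
    have : b * n = q / n * n + n := by rw [hb]; ring
    omega
  refine ⟨a * b * 1 * r, ?_, fun K _ => ?_⟩
  · have hdpos : (0 : ℝ) < d := by exact_mod_cast (by omega : 0 < d)
    have hd2 : (2 : ℝ) ≤ d := by exact_mod_cast hd
    have g1 : (r : ℝ) ≤ (1 + 10 / d) * (n : ℝ) ^ 2 := by
      have h1 : (d : ℝ) * r ≤ (d + 10) * (n : ℝ) ^ 2 := by exact_mod_cast hr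
      have h3 : (d : ℝ) * ((1 + 10 / d) * (n : ℝ) ^ 2) = (d + 10) * (n : ℝ) ^ 2 := by
        field_simp
      exact le_of_mul_le_mul_left (by linarith) hdpos
    have gB : (n : ℝ) * (20 * d) ≤ t := by
      have : ((n * B : ℕ) : ℝ) ≤ t := by exact_mod_cast hnB
      rw [hB] at this
      push_cast at this
      linarith
    have gp : (n : ℝ) ≤ p * (1 / (20 * d)) := by
      rw [mul_one_div, le_div_iff₀ (by positivity)]
      have : (t : ℝ) ≤ p := by exact_mod_cast htp
      linarith
    have gq : (n : ℝ) ≤ q * (1 / (20 * d)) := by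
      rw [mul_one_div, le_div_iff₀ (by positivity)]
      have : (t : ℝ) ≤ q := by exact_mod_cast htq
      linarith
    have ga : (a : ℝ) * n ≤ p * (1 + 1 / (20 * d)) := by
      have : (a : ℝ) * n ≤ p + n := by exact_mod_cast hpa'
      linarith
    have gb : (b : ℝ) * n ≤ q * (1 + 1 / (20 * d)) := by
      have : (b : ℝ) * n ≤ q + n := by exact_mod_cast hqb'
      linarith
    have hfac : (1 + 10 / (d : ℝ)) * ((1 + 1 / (20 * d)) * (1 + 1 / (20 * d))) ≤ 1 + 12 / d := by
      have e : (1 + 10 / (d : ℝ)) * ((1 + 1 / (20 * d)) * (1 + 1 / (20 * d))) =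
          ((d + 10) * (20 * d + 1) ^ 2) / (400 * d ^ 3) := by
        field_simp
        ring
      have e' : 1 + 12 / (d : ℝ) = ((d + 12) * (400 * d ^ 2)) / (400 * d ^ 3) := by
        field_simp
      rw [e, e']
      refine div_le_div_of_nonneg_right ?_ (by positivity)
      nlinarith [sq_nonneg ((d : ℝ) - 2), mul_pos hdpos hdpos]
    have hnr : (0 : ℝ) ≤ n := Nat.cast_nonneg n
    push_cast
    calc (a : ℝ) * b * 1 * r ≤ a * b * 1 * ((1 + 10 / d) * (n : ℝ) ^ 2) := by gcongr
      _ = (1 + 10 / d) * ((a * n) * (b * n)) := by ring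
      _ ≤ (1 + 10 / d) * ((p * (1 + 1 / (20 * d))) * (q * (1 + 1 / (20 * d)))) := by gcongr
      _ = ((1 + 10 / d) * ((1 + 1 / (20 * d)) * (1 + 1 / (20 * d)))) * (p * q) := by ring
      _ ≤ (1 + 12 / d) * (p * q) := by gcongr
  · -- `⟨p, q, m⟩`
    have h1 : MR K p q m (a * b * 1 * r) :=
      (hMR K).block (a := a) (b := b) (c := 1) (s' := m) hpa hqb (by simp)
    -- `⟨q, p, m⟩`
    have h2 : MR K q p m (a * b * 1 * r) := by
      have := (hMR K).block (a := b) (b := a) (c := 1) (s' := m) hqb hpa (by simp)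
      rwa [mul_comm b a] at this
    exact ⟨MulWith.of_MR (MR_rot h2), MulWith.of_MR (MR_rot (MR_rot h1)), MulWith.of_MR h1⟩

end Pool.Agent.U16.RM
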